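import Pool.Agent.Helper44_AEU.F4

/-!
Squad AEU, Part II, module GHO: a ghost is acute, and the shortest body touching it is the orthic
triangle.
-/

namespace Pool.Agent.AEU.H44

open MeasureTheory Complex Filter Topology Pool.Agent.H62T
open Pool.Agent.H16F (Sublin)
open Pool.Agent.AEU

theorem cons3 {α : Type} (z : Fin 3 → α) : ![z 0, z 1, z 2] = z := by
  funext i
  fin_cases i <;> rfl

theorem ne3 {α : Type} {s t r : α} (hst : s ≠ t) (hsr : s ≠ r) (htr : t ≠ r) :
    ∀ i j : Fin 3, i ≠ j → (![s, t, r] : Fin 3 → α) i ≠ (![s, t, r] : Fin 3 → α) j := by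
  intro i j hij
  fin_cases i <;> fin_cases j
  · exact absurd rfl hij
  · exact hst
  · exact hsr
  · exact hst.symm
  · exact absurd rfl hij
  · exact htr
  · exact hsr.symm
  · exact htr.symm
  · exact absurd rfl hij

/-- perimeter of a triangle -/
noncomputable def pm3 (z : Fin 3 → ℂ) : ℝ := ‖z 0 - z 1‖ + ‖z 1 - z 2‖ + ‖z 2 - z 0‖

theorem ip_comm' (u v : ℂ) : ip u v = ip v u := by
  unfold ip
  ring

/-- the triples of points of the closed polygon on three lines -/
def Adm (P : Finset HP) (σ : Fin 3 → HP) : Set (Fin 3 → ℂ) :=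
  {x | (∀ i, x i ∈ Cl P) ∧ ∀ i, ip (σ i).1 (x i) = (σ i).2}

theorem adm_compact (P : Finset HP) (hc : IsCompact (Cl P)) (σ : Fin 3 → HP) :
    IsCompact (Adm P σ) := by
  have h1 : Adm P σ = Set.univ.pi (fun _ : Fin 3 => Cl P) ∩
      {x | ∀ i, ip (σ i).1 (x i) = (σ i).2} := by
    ext x
    simp [Adm]
  rw [h1]
  refine (isCompact_univ_pi fun _ => hc).inter_right ?_
  have : {x : Fin 3 → ℂ | ∀ i, ip (σ i).1 (x i) = (σ i).2}
      = ⋂ i, {x : Fin 3 → ℂ | ip (σ i).1 (x i) = (σ i).2} := by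
    ext x
    simp
  rw [this]
  exact isClosed_iInter fun i => isClosed_eq
    ((continuous_ip_right (σ i).1).comp (continuous_apply i)) continuous_const

/-- contact points -/
theorem adm_of_body (hsup : SupStatement) (hhul : HulStatement) (hver : VerStatement)
    (P : Finset HP) (hP : Pg P) (gP : G1 P) (σ : Fin 3 → HP) (h : ℂ → ℝ) (hs : Sublin h)
    (hfit : Fits P h) (hσ : ∀ i, h (σ i).1 = (σ i).2) :
    ∃ x ∈ Adm P σ, ∀ w, hf x w ≤ h w := by
  choose x hx using fun i => (hsup h hs).2.2.2 (σ i).1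
  refine ⟨x, ⟨fun i => (hver P hP gP).2.2.2.2.2.2.1 h hfit (x i) (hx i).1, fun i => ?_⟩, ?_⟩
  · rw [(hx i).2, hσ i]
  · exact (hhul 2 x).2.2.2.1 h fun i => (hx i).1

/-- module GHO -/
theorem gho (hf3 : F3Statement) (hell : EllStatement) (hcnt : CntStatement) (hhul : HulStatement)
    (hper : PerStatement) (hsup : SupStatement) (hver : VerStatement) (hmix : MixStatement)
    (hlam : LamStatement) : GhoStatement := by
  intro P hP S hG
  obtain ⟨hSP, hS3, h, hsub, hfit, htouch, hlt⟩ := hG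
  obtain ⟨s, t, r, hst, hsr, htr, rfl⟩ := Finset.card_eq_three.mp hS3
  set σ : Fin 3 → HP := ![s, t, r] with hσ
  have hver' := hver P hP.pg hP.g1
  have hcomp : IsCompact (Cl P) := hver'.2.2.2.2.2.2.2.2
  have hσP : ∀ i, σ i ∈ P := by
    intro i
    apply hSP
    fin_cases i <;> simp [σ]
  have htri : ∀ h' : ℂ → ℝ, ({s, t, r} : Finset HP) ⊆ touch P h' → ∀ i, h' (σ i).1 = (σ i).2 := by
    intro h' hh i
    have : σ i ∈ touch P h' := by
      apply hh
      fin_cases i <;> simp [σ]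
    exact (Finset.mem_filter.mp this).2
  obtain ⟨x', hx', -⟩ := adm_of_body hsup hhul hver P hP.pg hP.g1 σ h hsub hfit (htri h htouch)
  obtain ⟨x, hx, hmin⟩ := (adm_compact P hcomp σ).exists_isMinOn ⟨x', hx'⟩
    (hcnt 2).2.continuousOn
  have hmin' : ∀ y ∈ Adm P σ, lam (hf x) ≤ lam (hf y) := fun y hy => hmin hy
  have hall : ∀ h', Sublin h' → Fits P h' → ({s, t, r} : Finset HP) ⊆ touch P h' →
      lam (hf x) ≤ lam h' := by
    intro h' hs' hf' ht'
    obtain ⟨y, hy, hle⟩ := adm_of_body hsup hhul hver P hP.pg hP.g1 σ h' hs' hf' (htri h' ht')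
    exact (hmin' y hy).trans (hlam.2.1 _ _ (hhul 2 y).1 hs' hle).1
  have hm := (hmix P).2.2 2 x hx.1
  have htx : ({s, t, r} : Finset HP) ⊆ touch P (hf x) := by
    intro a ha
    rw [hm.2]
    refine ⟨hSP ha, ?_⟩
    simp only [Finset.mem_insert, Finset.mem_singleton] at ha
    rcases ha with rfl | rfl | rfl
    · exact ⟨0, hx.2 0⟩
    · exact ⟨1, hx.2 1⟩
    · exact ⟨2, hx.2 2⟩
  have hnsp : ¬ Special P (hf x) := by
    intro hsp
    exact absurd (hlt _ hsp htx) (not_lt.mpr (hall h hsub hfit htouch))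
  have h3 : 3 ≤ (touch P (hf x)).card := by
    have := Finset.card_le_card htx
    omega
  have hn : ¬ ((∃ v, Vx P v ∧ In v (hf x)) ∨ 4 ≤ (touch P (hf x)).card) := fun hh =>
    hnsp ⟨(hhul 2 x).1, hm.1, h3, hh⟩
  rw [not_or] at hn
  have htS : touch P (hf x) = {s, t, r} := by
    symm
    apply Finset.eq_of_subset_of_card_le htx
    rw [hS3]
    omega
  have hnv : ∀ i, ¬ Vx P (x i) := fun i hv => hn.1 ⟨x i, hv, (hhul 2 x).2.1 i⟩
  have hin : ∀ i, ∀ a ∈ P, a ≠ σ i → ip a.1 (x i) < a.2 := fun i =>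
    hver'.2.2.2.2.2.1 (x i) (hx.1 i) (σ i) (hσP i) (hx.2 i) (hnv i)
  have hpm : ∀ y : Fin 3 → ℂ, lam (hf y) = pm3 y := by
    intro y
    rw [← cons3 y, hper.2.1]
    rfl
  have hsl : ∀ i, ∃ ε > 0, ∀ a : ℝ, |a| < ε →
      pm3 x ≤ pm3 (Function.update x i (x i + a * (I * (σ i).1))) := by
    intro i
    obtain ⟨ε, hε, hh⟩ := slide P (σ i) (x i) (hx.2 i) (hin i)
    refine ⟨ε, hε, fun a ha => ?_⟩
    rw [← hpm, ← hpm]
    apply hmin'
    refine ⟨fun j => ?_, fun j => ?_⟩
    · by_cases hj : j = i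
      · subst hj
        simpa using (hh a ha).1
      · rw [Function.update_of_ne hj]
        exact hx.1 j
    · by_cases hj : j = i
      · subst hj
        simpa using (hh a ha).2
      · rw [Function.update_of_ne hj]
        exact hx.2 j
  obtain ⟨ε0, hε0, hs0⟩ := hsl 0
  obtain ⟨ε1, hε1, hs1⟩ := hsl 1
  obtain ⟨ε2, hε2, hs2⟩ := hsl 2
  have hu : ∀ i, ‖(σ i).1‖ = 1 := fun i => hP.pg.unit _ (hσP i)
  have hne : ∀ i j, i ≠ j → σ i ≠ σ j := ne3 hst hsr htr
  have hlt' : ∀ i j, i ≠ j → ip (σ i).1 (x j) < (σ i).2 := fun i j hij =>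
    hin j (σ i) (hσP i) (hne i j hij)
  have key := hf3 s t r (x 0) (x 1) (x 2) (hu 0) (hu 1) (hu 2) (hx.2 0) (hx.2 1) (hx.2 2)
    (hlt' 0 1 (by decide)) (hlt' 0 2 (by decide)) (hlt' 1 0 (by decide)) (hlt' 1 2 (by decide))
    (hlt' 2 0 (by decide)) (hlt' 2 1 (by decide))
    ⟨min ε0 (min ε1 ε2), lt_min hε0 (lt_min hε1 hε2), fun a ha => by
      have ha0 : |a| < ε0 := lt_of_lt_of_le ha (min_le_left _ _)
      have ha1 : |a| < ε1 := lt_of_lt_of_le ha ((min_le_right _ _).trans (min_le_left _ _))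
      have ha2 : |a| < ε2 := lt_of_lt_of_le ha ((min_le_right _ _).trans (min_le_right _ _))
      have e0 := hs0 a ha0
      have e1 := hs1 a ha1
      have e2 := hs2 a ha2
      simp only [pm3, Function.update, Fin.isValue, σ] at e0 e1 e2
      simp at e0 e1 e2
      have c1 := norm_sub_rev (x 0) (x 1)
      have c2 := norm_sub_rev (x 1) (x 2)
      have c3 := norm_sub_rev (x 2) (x 0)
      refine ⟨?_, ?_, ?_⟩
      · rw [norm_sub_rev (x 1), norm_sub_rev (x 0) (x 2), norm_sub_rev (x 1),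
          norm_sub_rev (x 0 + _) (x 2)]
        linarith
      · linarith
      · rw [norm_sub_rev (x 0) (x 2), norm_sub_rev (x 2) (x 1), norm_sub_rev (x 0),
          norm_sub_rev _ (x 1)]
        linarith⟩
  have hell3 : ell {s, t, r} = ell3 s t r := hell.1 s t r hst hsr htr
  have hlamx : lam (hf x) = ell {s, t, r} := by
    rw [hell3, ← key.2.2.2, hpm]
    rfl
  refine ⟨?_, hf x, (hhul 2 x).1, hm.1, htS, hlamx, ?_⟩
  · intro a ha b hb hab
    simp only [Finset.mem_insert, Finset.mem_singleton] at ha hb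
    rcases ha with rfl | rfl | rfl <;> rcases hb with rfl | rfl | rfl
    · exact absurd rfl hab
    · exact key.1
    · rw [ip_comm']; exact key.2.2.1
    · rw [ip_comm']; exact key.1
    · exact absurd rfl hab
    · exact key.2.1
    · exact key.2.2.1
    · rw [ip_comm']; exact key.2.1
    · exact absurd rfl hab
  · intro h' hs' hf' ht'
    rw [← hlamx]
    exact hall h' hs' hf' ht'

end Pool.Agent.AEU.H44
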