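import Pool.Agent.Helper25_AEU.Stmt

/-!
Squad AEU, Part II, module F4: a quadrilateral with vertices inside four different sides is not
the shortest body touching these sides.
-/

namespace Pool.Agent.AEU.H44

open MeasureTheory Complex Filter Topology Pool.Agent.H62T
open Pool.Agent.H16F (Sublin)
open Pool.Agent.AEU

theorem ip_add_right' (u x y : ℂ) : ip u (x + y) = ip u x + ip u y := by
  unfold ip
  simp only [Complex.add_re, Complex.add_im]
  ring

theorem ip_mul_I (u : ℂ) (a : ℝ) : ip u (a * (I * u)) = 0 := by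
  unfold ip
  simp
  ring

theorem continuous_ip_right (u : ℂ) : Continuous fun x => ip u x := by
  unfold ip
  fun_prop

/-- a point inside a side can be moved along this side -/
theorem slide (P : Finset HP) (s : HP) (x : ℂ) (hx : ip s.1 x = s.2)
    (hin : ∀ t ∈ P, t ≠ s → ip t.1 x < t.2) :
    ∃ ε > 0, ∀ a : ℝ, |a| < ε → x + a * (I * s.1) ∈ Cl P ∧ ip s.1 (x + a * (I * s.1)) = s.2 := by
  have key : ∀ᶠ a : ℝ in 𝓝 0, ∀ t ∈ P, t ≠ s → ip t.1 (x + a * (I * s.1)) < t.2 := by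
    rw [Filter.eventually_all_finset]
    intro t ht
    by_cases hts : t = s
    · exact Filter.Eventually.of_forall fun a h => absurd hts h
    · have hc : Continuous fun a : ℝ => ip t.1 (x + a * (I * s.1)) :=
        (continuous_ip_right t.1).comp (by fun_prop)
      have h0 : ip t.1 (x + (0 : ℝ) * (I * s.1)) < t.2 := by
        simpa using hin t ht hts
      filter_upwards [hc.continuousAt.eventually_lt continuousAt_const h0] with a ha _
      exact ha
  obtain ⟨ε, hε, h⟩ := Metric.eventually_nhds_iff.mp key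
  have hon : ∀ a : ℝ, ip s.1 (x + a * (I * s.1)) = s.2 := by
    intro a
    rw [ip_add_right', ip_mul_I, add_zero, hx]
  refine ⟨ε, hε, fun a ha => ⟨fun t ht => ?_, hon a⟩⟩
  by_cases hts : t = s
  · subst hts
    exact (hon a).le
  · exact (h (by simpa using ha) t ht hts).le

theorem hf_comp_perm {m : ℕ} (x : Fin m → ℂ) (e : Equiv.Perm (Fin m)) :
    hf (fun i => x (e i)) = hf x := by
  funext w
  unfold hf
  exact e.iSup_comp (g := fun i => ip w (x i))

theorem cons4 (z : Fin 4 → ℂ) : ![z 0, z 1, z 2, z 3] = z := by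
  funext i
  fin_cases i <;> rfl

/-- perimeter of a quadrilateral -/
noncomputable def pm (z : Fin 4 → ℂ) : ℝ :=
  ‖z 0 - z 1‖ + ‖z 1 - z 2‖ + ‖z 2 - z 3‖ + ‖z 3 - z 0‖

/-- the reflection laws at four points are incompatible with genericity -/
theorem four_refl (u0 u1 u2 u3 d0 d1 d2 d3 : ℂ) (h0' : d0 ≠ 0) (n1 : ‖u1‖ = 1) (n3 : ‖u3‖ = 1)
    (h1 : d1 = -(u1 ^ 2 * (starRingEnd ℂ) d0)) (h2 : d2 = -(u2 ^ 2 * (starRingEnd ℂ) d1))
    (h3 : d3 = -(u3 ^ 2 * (starRingEnd ℂ) d2)) (h0 : d0 = -(u0 ^ 2 * (starRingEnd ℂ) d3)) :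
    u0 * u2 = u1 * u3 ∨ u0 * u2 = -(u1 * u3) := by
  have m1 : u1 * (starRingEnd ℂ) u1 = 1 := by
    rw [Complex.mul_conj, Complex.normSq_eq_norm_sq, n1]; simp
  have m3 : u3 * (starRingEnd ℂ) u3 = 1 := by
    rw [Complex.mul_conj, Complex.normSq_eq_norm_sq, n3]; simp
  have e : d0 = (u0 * u2) ^ 2 * ((starRingEnd ℂ) u1 * (starRingEnd ℂ) u3) ^ 2 * d0 := by
    conv_lhs => rw [h0, h3, h2, h1]
    simp only [map_neg, map_mul, map_pow, Complex.conj_conj]
    ring
  have e2 : (u0 * u2) ^ 2 * ((starRingEnd ℂ) u1 * (starRingEnd ℂ) u3) ^ 2 = 1 := by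
    have : ((u0 * u2) ^ 2 * ((starRingEnd ℂ) u1 * (starRingEnd ℂ) u3) ^ 2 - 1) * d0 = 0 := by
      linear_combination -e
    rcases mul_eq_zero.mp this with h | h
    · linear_combination h
    · exact absurd h h0'
  have e3 : (u0 * u2) ^ 2 = (u1 * u3) ^ 2 := by
    have e4 : (u1 * (starRingEnd ℂ) u1) ^ 2 * (u3 * (starRingEnd ℂ) u3) ^ 2 = 1 := by
      rw [m1, m3]; norm_num
    calc (u0 * u2) ^ 2 = (u0 * u2) ^ 2 *
        ((u1 * (starRingEnd ℂ) u1) ^ 2 * (u3 * (starRingEnd ℂ) u3) ^ 2) := by rw [e4, mul_one]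
      _ = ((u0 * u2) ^ 2 * ((starRingEnd ℂ) u1 * (starRingEnd ℂ) u3) ^ 2) * (u1 * u3) ^ 2 := by
          ring
      _ = (u1 * u3) ^ 2 := by rw [e2, one_mul]
  exact sq_eq_sq_iff_eq_or_eq_neg.mp e3

/-- module F4 -/
theorem f4 (hrad : RadStatement) (hper : PerStatement) (href : RefStatement) : F4Statement := by
  intro P hP gP x s hinj hmem hon hin
  by_contra hno
  push Not at hno
  obtain ⟨e, p, hp1, hp2⟩ := hrad x s hon
    (fun i j hij => hin j (s i) (hmem i) (fun h => hij (hinj h)))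
  set z : Fin 4 → ℂ := fun i => x (e i) with hz
  set r : Fin 4 → HP := fun i => s (e i) with hr
  have hxz : lam (hf x) = pm z := by
    rw [← hf_comp_perm x e, ← cons4 (fun i => x (e i)), hper.2.2.2 _ _ _ _ p hp1 hp2]
    rfl
  have hle : ∀ y : Fin 4 → ℂ, (∀ i, y i ∈ Cl P ∧ ip (r i).1 (y i) = (r i).2) → pm z ≤ pm y := by
    intro y hy
    have h1 := hno (fun i => y (e.symm i)) (fun i => by
      have := hy (e.symm i)
      simpa [hr] using this)
    rw [hxz] at h1
    have h2 : hf (fun i => y (e.symm i)) = hf ![y 0, y 1, y 2, y 3] := by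
      rw [hf_comp_perm y e.symm, cons4]
    rw [h2] at h1
    exact h1.trans (hper.2.2.1 _ _ _ _)
  have hzon : ∀ i, ip (r i).1 (z i) = (r i).2 := fun i => hon (e i)
  have hzin : ∀ i, ∀ t ∈ P, t ≠ r i → ip t.1 (z i) < t.2 := fun i => hin (e i)
  have hzCl : ∀ i, z i ∈ Cl P := by
    intro i t ht
    by_cases h : t = r i
    · rw [h]; exact (hzon i).le
    · exact (hzin i t ht h).le
  have hrinj : ∀ i j, i ≠ j → r i ≠ r j := fun i j hij h => hij (e.injective (hinj h))
  have hrP : ∀ i, r i ∈ P := fun i => hmem (e i)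
  have hmin : ∀ i, ∃ ε > 0, ∀ a : ℝ, |a| < ε →
      pm z ≤ pm (Function.update z i (z i + a * (I * (r i).1))) := by
    intro i
    obtain ⟨ε, hε, h⟩ := slide P (r i) (z i) (hzon i) (hzin i)
    refine ⟨ε, hε, fun a ha => hle _ fun j => ?_⟩
    by_cases hj : j = i
    · subst hj
      simpa using h a ha
    · rw [Function.update_of_ne hj]
      exact ⟨hzCl j, hzon j⟩
  have hlt : ∀ i j, j ≠ i → ip (r i).1 (z j) < (r i).2 := fun i j hij =>
    hzin j (r i) (hrP i) (fun h => hrinj j i hij h.symm)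
  have hne : ∀ i j, j ≠ i → z j - z i ≠ 0 := by
    intro i j hij h
    have h1 := hlt i j hij
    rw [sub_eq_zero.mp h, hzon i] at h1
    exact lt_irrefl _ h1
  set d : Fin 4 → ℂ := fun i => (z (i + 1) - z i) / (‖z (i + 1) - z i‖ : ℂ) with hd
  have hun : ∀ i, ‖(r i).1‖ = 1 := fun i => hP.unit _ (hrP i)
  have L1 : d 1 = -((r 1).1 ^ 2 * (starRingEnd ℂ) (d 0)) := by
    obtain ⟨ε, hε, h⟩ := hmin 1
    exact (href (r 1).1 (z 0) (z 2) (z 1) (r 1).2 (hun 1) (hzon 1) (hlt 1 0 (by decide))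
      (hlt 1 2 (by decide)) ⟨ε, hε, fun t ht => by
        have := h t ht
        simp only [pm, Function.update, Fin.isValue, ] at this
        simp at this
        linarith⟩).2
  have L2 : d 2 = -((r 2).1 ^ 2 * (starRingEnd ℂ) (d 1)) := by
    obtain ⟨ε, hε, h⟩ := hmin 2
    exact (href (r 2).1 (z 1) (z 3) (z 2) (r 2).2 (hun 2) (hzon 2) (hlt 2 1 (by decide))
      (hlt 2 3 (by decide)) ⟨ε, hε, fun t ht => by
        have := h t ht
        simp only [pm, Function.update, Fin.isValue, ] at this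
        simp at this
        linarith⟩).2
  have L3 : d 3 = -((r 3).1 ^ 2 * (starRingEnd ℂ) (d 2)) := by
    obtain ⟨ε, hε, h⟩ := hmin 3
    exact (href (r 3).1 (z 2) (z 0) (z 3) (r 3).2 (hun 3) (hzon 3) (hlt 3 2 (by decide))
      (hlt 3 0 (by decide)) ⟨ε, hε, fun t ht => by
        have := h t ht
        simp only [pm, Function.update, Fin.isValue, ] at this
        simp at this
        linarith⟩).2
  have L0 : d 0 = -((r 0).1 ^ 2 * (starRingEnd ℂ) (d 3)) := by
    obtain ⟨ε, hε, h⟩ := hmin 0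
    exact (href (r 0).1 (z 3) (z 1) (z 0) (r 0).2 (hun 0) (hzon 0) (hlt 0 3 (by decide))
      (hlt 0 1 (by decide)) ⟨ε, hε, fun t ht => by
        have := h t ht
        simp only [pm, Function.update, Fin.isValue, ] at this
        simp at this
        linarith⟩).2
  have hd0 : d 0 ≠ 0 := by
    have h1 := hne 0 1 (by decide)
    exact div_ne_zero h1 (by simpa using h1)
  have hf4 := gP.four (r 0) (hrP 0) (r 1) (hrP 1) (r 2) (hrP 2) (r 3) (hrP 3)
    (hrinj 0 1 (by decide)) (hrinj 0 2 (by decide)) (hrinj 0 3 (by decide))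
    (hrinj 1 2 (by decide)) (hrinj 1 3 (by decide)) (hrinj 2 3 (by decide))
  rcases four_refl _ _ _ _ _ _ _ _ hd0 (hun 1) (hun 3) L1 L2 L3 L0 with h | h
  · exact hf4.1 h
  · exact hf4.2 h

end Pool.Agent.AEU.H44
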