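import Pool.Agent.Helper25_AEU.Stmt

/-!
Squad AEU, Part II, module UNI: isometries are determined by two half-planes with independent
normals.
-/

namespace Pool.Agent.AEU.H44

open MeasureTheory Complex Filter Topology Pool.Agent.H62T
open Pool.Agent.H16F (Sublin)
open Pool.Agent.AEU

/-- `ip` and `dt` of unit vectors -/
theorem ip_sq_add_dt_sq (u v : ℂ) (hu : ‖u‖ = 1) (hv : ‖v‖ = 1) : ip u v ^ 2 + dt u v ^ 2 = 1 := by
  have h1 : u.re ^ 2 + u.im ^ 2 = 1 := by
    have := Complex.sq_norm u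
    rw [hu, Complex.normSq_apply] at this
    nlinarith
  have h2 : v.re ^ 2 + v.im ^ 2 = 1 := by
    have := Complex.sq_norm v
    rw [hv, Complex.normSq_apply] at this
    nlinarith
  unfold ip dt
  have : (u.re * v.re + u.im * v.im) ^ 2 + (u.re * v.im - u.im * v.re) ^ 2
      = (u.re ^ 2 + u.im ^ 2) * (v.re ^ 2 + v.im ^ 2) := by ring
  rw [this, h1, h2, one_mul]

theorem dt_ne_zero (u v : ℂ) (hu : ‖u‖ = 1) (hv : ‖v‖ = 1) (h : |ip u v| < 1) : dt u v ≠ 0 := by
  intro h0
  have h1 := ip_sq_add_dt_sq u v hu hv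
  rw [h0] at h1
  have h2 : |ip u v| ^ 2 = 1 := by rw [sq_abs]; linarith
  have h3 := abs_nonneg (ip u v)
  nlinarith

/-- every vector is a combination of two independent ones -/
theorem decomp (u v w : ℂ) (h : dt u v ≠ 0) :
    w = (dt w v / dt u v : ℝ) • u + (dt u w / dt u v : ℝ) • v := by
  apply Complex.ext
  · simp only [Complex.add_re, Complex.real_smul, Complex.mul_re, Complex.ofReal_re,
      Complex.ofReal_im, zero_mul, sub_zero]
    field_simp
    unfold dt
    ring
  · simp only [Complex.add_im, Complex.real_smul, Complex.mul_im, Complex.ofReal_re,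
      Complex.ofReal_im, zero_mul, add_zero]
    field_simp
    unfold dt
    ring

theorem eq_of_ip (u v x y : ℂ) (h : dt u v ≠ 0) (h1 : ip u x = ip u y) (h2 : ip v x = ip v y) :
    x = y := by
  unfold ip at h1 h2
  have e1 : dt u v * (x.re - y.re) = 0 := by
    unfold dt
    linear_combination v.im * h1 - u.im * h2
  have e2 : dt u v * (x.im - y.im) = 0 := by
    unfold dt
    linear_combination u.re * h2 - v.re * h1
  apply Complex.ext
  · have := (mul_eq_zero.mp e1).resolve_left h
    linarith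
  · have := (mul_eq_zero.mp e2).resolve_left h
    linarith

theorem iso_apply (g : Iso2) (x : ℂ) : g x = g.linearIsometryEquiv x + g 0 := by
  have := g.map_vadd 0 x
  simpa using this

theorem iso_ext (g g' : Iso2) (h : ∀ x, g.linearIsometryEquiv x = g'.linearIsometryEquiv x)
    (h0 : g 0 = g' 0) : g = g' := by
  ext x
  · rw [iso_apply g, iso_apply g', h, h0]
  

theorem uni1 (hact : ActStatement) (g g' : Iso2) (s t : HP) (hs : ‖s.1‖ = 1) (ht : ‖t.1‖ = 1)
    (hst : |ip s.1 t.1| < 1) (h1 : mv g s = mv g' s) (h2 : mv g t = mv g' t) : g = g' := by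
  have hd := dt_ne_zero s.1 t.1 hs ht hst
  have e1 : g.linearIsometryEquiv s.1 = g'.linearIsometryEquiv s.1 := congrArg Prod.fst h1
  have e2 : g.linearIsometryEquiv t.1 = g'.linearIsometryEquiv t.1 := congrArg Prod.fst h2
  have e3 : s.2 + ip (g.linearIsometryEquiv s.1) (g 0)
      = s.2 + ip (g'.linearIsometryEquiv s.1) (g' 0) := congrArg Prod.snd h1
  have e4 : t.2 + ip (g.linearIsometryEquiv t.1) (g 0)
      = t.2 + ip (g'.linearIsometryEquiv t.1) (g' 0) := congrArg Prod.snd h2
  have hlin : ∀ x, g.linearIsometryEquiv x = g'.linearIsometryEquiv x := by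
    intro x
    rw [decomp s.1 t.1 x hd, map_add, map_add, map_smul, map_smul, map_smul, map_smul, e1, e2]
  apply iso_ext g g' hlin
  have hd' : dt (g.linearIsometryEquiv s.1) (g.linearIsometryEquiv t.1) ≠ 0 := by
    have := hact.2.2.2.2.2.2.2.2.1 g s t
    intro h0
    unfold mv at this
    simp only [h0, abs_zero] at this
    exact hd (abs_eq_zero.mp this.symm)
  rw [← e1] at e3
  rw [← e2] at e4
  exact eq_of_ip _ _ _ _ hd' (by linarith) (by linarith)

theorem mv_inj (hact : ActStatement) (g : Iso2) (s t : HP) (h : mv g s = mv g t) : s = t := by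
  obtain ⟨hmul, hone, -⟩ := hact
  have h1 : mv g⁻¹ (mv g s) = mv g⁻¹ (mv g t) := by rw [h]
  rw [← hmul, ← hmul, inv_mul_cancel, hone, hone] at h1
  exact h1

theorem uni2 (hact : ActStatement) (P Q : Finset HP) (hP : Pg P) (gP : G1 P)
    (gQ : G1 Q) (g g' : Iso2) (s t : HP) (hs : s ∈ P) (ht : t ∈ P) (hst : s ≠ t)
    (h1 : mv g s ∈ Q) (h2 : mv g t ∈ Q) (h3 : mv g' s ∈ Q) (h4 : mv g' t ∈ Q) :
    g = g' ∨ (mv g s = mv g' t ∧ mv g t = mv g' s) := by
  have hip := hact.2.2.2.2.2.2.2.1
  have n1 : mv g s ≠ mv g t := fun h => hst (mv_inj hact g s t h)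
  have n2 : mv g' s ≠ mv g' t := fun h => hst (mv_inj hact g' s t h)
  rcases gQ.inj _ h1 _ h2 _ h3 _ h4 n1 n2 (by rw [hip, hip]) with h | h
  · left
    exact uni1 hact g g' s t (hP.unit s hs) (hP.unit t ht) (gP.lt1 s hs t ht hst) h.1 h.2
  · right
    exact h

/-- module UNI -/
theorem uni (hact : ActStatement) : UniStatement := by
  refine ⟨fun g g' s t hs ht hst h1 h2 => uni1 hact g g' s t hs ht hst h1 h2, ?_⟩
  intro P Q hP hQ gP gQ g g'
  refine ⟨fun s hs t ht hst h1 h2 h3 h4 =>
    uni2 hact P Q hP gP gQ g g' s t hs ht hst h1 h2 h3 h4, ?_⟩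
  intro S hSP hS h1 h2
  obtain ⟨a, ha, b, hb, c, hc, hab, hac, hbc⟩ := Finset.two_lt_card.mp (by omega : 2 < S.card)
  rcases uni2 hact P Q hP gP gQ g g' a b (hSP ha) (hSP hb) hab (h1 a ha) (h1 b hb) (h2 a ha)
    (h2 b hb) with h | h
  · exact h
  rcases uni2 hact P Q hP gP gQ g g' a c (hSP ha) (hSP hc) hac (h1 a ha) (h1 c hc) (h2 a ha)
    (h2 c hc) with h' | h'
  · exact h'
  exact absurd (mv_inj hact g' b c (h.1.symm.trans h'.1)) hbc

/-- module K4 -/
theorem k4 (huni : UniStatement) (hact : ActStatement) : K4Statement := by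
  intro P Q hP hQ gP gQ g g' g'' a b c d ha hb hc hd hab hac had hbc hbd hcd ga gb gc ga' gb' gd'
    ga'' gc'' gd''
  have hip := hact.2.2.2.2.2.2.2.1
  have U := fun g g' => (huni.2 P Q hP hQ gP gQ g g').1
  have I := fun g s t => mv_inj hact g s t
  rcases U g g' a ha b hb hab ga gb ga' gb' with h | h
  · subst h
    refine ⟨rfl, ?_⟩
    rcases U g g'' a ha c hc hac ga gc ga'' gc'' with h | h
    · exact h
    rcases U g g'' a ha d hd had ga gd' ga'' gd'' with h' | h'
    · exact h'
    exact absurd (I g'' c d (h.1.symm.trans h'.1)) hcd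
  · exfalso
    rcases U g g'' a ha c hc hac ga gc ga'' gc'' with h' | h'
    · subst h'
      rcases U g' g a ha d hd had ga' gd' ga gd'' with h'' | h''
      · subst h''
        exact hab (I g' a b h.1)
      · exact hbd (I g b d (h.2.trans h''.1))
    · rcases U g' g'' a ha d hd had ga' gd' ga'' gd'' with h'' | h''
      · subst h''
        exact hbc (I g' b c (h.1.symm.trans h'.1))
      · have e1 : |ip b.1 c.1| = |ip a.1 d.1| := by
          rw [← hip g b c, h.2, h'.2, ← h''.2, hip g' a d]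
        rcases gP.inj b hb c hc a ha d hd hbc had e1 with e | e
        · exact hab e.1.symm
        · exact hbd e.1

end Pool.Agent.AEU.H44
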